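import Mathlib
import Pool.Agent.Q16.NK.Final

/-!
# k-term progressions with discrepancy beyond `√k`

`N(k, √k + (log k)/25) ≤ C k ^ 5` for every `k ≥ 1`; moreover, in every interval of `C k ^ 5` integers
the progression can be chosen with common difference at most `C k ^ (5/2)`, hence in a window of
length at most `C k ^ (7/2)`.
-/

set_option autoImplicit false

namespace Pool.Agent.Results.MP_164296_co.BeyondSquareRoot

open Finset

/-- `Forces N k l`: for every `f` on `{1, …, N}` with values `±1` there is a `k`-term progression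
`a, a + d, …, a + (k-1) d` in `{1, …, N}`, `a, d ≥ 1`, over which the sum of `f` has absolute value at
least `l`. -/
def Forces (N k : ℕ) (l : ℝ) : Prop :=
  ∀ f : ℕ → ℤ, (∀ n, 1 ≤ n → n ≤ N → f n = 1 ∨ f n = -1) →
    ∃ a d : ℕ, 1 ≤ a ∧ 1 ≤ d ∧ a + (k - 1) * d ≤ N ∧
      l ≤ |((∑ j ∈ range k, f (a + j * d) : ℤ) : ℝ)|

/-- `N(k, l)`, the least `N` with `Forces N k l`. -/
noncomputable def leastN (k : ℕ) (l : ℝ) : ℕ := sInf {N | Forces N k l}

/-- There is `C` such that for every `k ≥ 1`, with `l = √k + (log k)/25`: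

(A) `N(k, l)` exists and is at most `C k ^ 5`;

(B) for every integer `m` and every `N ≥ C k ^ 5`, each function `f` with values `±1` on
`{m + 1, …, m + N}` has a `k`-term progression in this interval with common difference
`1 ≤ d ≤ C k ^ (5/2)` over which the sum of `f` has absolute value at least `l`. -/
theorem result : ∃ C : ℕ, ∀ k : ℕ, 1 ≤ k →
    ((∃ N, Forces N k (Real.sqrt k + Real.log k / 25)) ∧
      leastN k (Real.sqrt k + Real.log k / 25) ≤ C * k ^ 5) ∧
    (∀ (m : ℤ) (N : ℕ), C * k ^ 5 ≤ N → ∀ f : ℤ → ℤ,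
      (∀ n, m + 1 ≤ n → n ≤ m + N → f n = 1 ∨ f n = -1) →
      ∃ (a : ℤ) (d : ℕ), m + 1 ≤ a ∧ 1 ≤ d ∧ a + ((k - 1 : ℕ) : ℤ) * d ≤ m + N ∧
        (d : ℝ) ≤ C * (k : ℝ) ^ (5 / 2 : ℝ) ∧
        Real.sqrt k + Real.log k / 25 ≤ |((∑ j ∈ range k, f (a + j * d) : ℤ) : ℝ)|) := by
  obtain ⟨C, hC⟩ := Pool.Agent.Q16.NK.final
  refine ⟨C, fun k hk => ⟨?_, ?_⟩⟩
  · have h : Forces (C * k ^ 5) k (Real.sqrt k + Real.log k / 25) := by
      intro f hf
      obtain ⟨a, d, ha, hd, had, -, hs⟩ := hC k hk (C * k ^ 5) le_rfl f hf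
      exact ⟨a, d, ha, hd, had, hs⟩
    exact ⟨⟨_, h⟩, Nat.sInf_le h⟩
  · intro m N hN f hf
    obtain ⟨a, d, ha, hd, had, hd2, hs⟩ := hC k hk N hN (fun n => f (m + n)) (by
      intro n h1 h2
      exact hf (m + n) (by omega) (by omega))
    refine ⟨m + a, d, by omega, hd, ?_, hd2, ?_⟩
    · have : ((a + (k - 1) * d : ℕ) : ℤ) ≤ N := by exact_mod_cast had
      rw [Nat.cast_add, Nat.cast_mul] at this
      linarith
    · have e : ∑ j ∈ range k, f (m + a + j * d) = ∑ j ∈ range k, f (m + ((a + j * d : ℕ) : ℤ)) := by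
        refine sum_congr rfl fun j _ => ?_
        congr 1
        push_cast
        ring
      rw [e]
      exact hs

end Pool.Agent.Results.MP_164296_co.BeyondSquareRoot
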